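import Pool.Agent.H564R3.RN.PermTS

/-!
Counting perfect matchings up to any factor, with coins, by subtraction-free programs and formulas:
little space and small depth.
-/

set_option autoImplicit false

namespace Pool.Agent.Results.MP_0087d5_lc.ApproximateDepth

open Pool.Agent.H564R3.PW (Instr)
open Pool.Agent.H564R3.AP (RandomApprox)
open Pool.Agent.H564R3.RN (Fm RandomPermFormula)
open scoped NNReal

/-- (1) Randomised subtraction-free programs with the registers `ρ` and at most `T` instructions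
which approximate the permanent within a factor `r`. (2) Randomised subtraction-free formulas of
depth at most `D`. -/
theorem result (n : ℕ) :
    (∀ (ρ : Type) [Fintype ρ] [DecidableEq ρ] (Λ : Type) [Fintype Λ] (e : ℝ) (r : ℝ≥0)
      (q : Λ → ℝ) (p : Λ → List (Instr ℝ≥0 (Fin n × Fin n) ρ)) (o : ρ), RandomApprox e r q p o →
      ∀ T : ℕ, (∀ l, (p l).length ≤ T) →
        (1 - 2 * e) * (4 : ℝ) ^ n ≤ 2 * (T : ℝ) *
          (2 : ℝ) ^ (5 * Real.sqrt ((n : ℝ) *
            Real.logb 2 (2 * ((n : ℝ) + 1) ^ 2 * (Fintype.card ρ : ℝ))) + 7)) ∧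
    (∀ (Λ : Type) [Fintype Λ] (e : ℝ) (r : ℝ≥0) (q : Λ → ℝ) (f : Λ → Fm ℝ≥0 (Fin n × Fin n)),
      RandomPermFormula e r q f → ∀ D : ℕ, (∀ l, (f l).depth ≤ D) →
        (1 - 2 * e) * (4 : ℝ) ^ n ≤ (2 : ℝ) ^ (D + 2) *
          (2 : ℝ) ^ (5 * Real.sqrt ((n : ℝ) *
            Real.logb 2 (2 * ((n : ℝ) + 1) ^ 2 * ((D : ℝ) + 1))) + 7)) := by
  refine ⟨?_, ?_⟩
  · intro ρ _ _ Λ _ e r q p o h T hT
    exact Pool.Agent.H564R3.RN.perm_ts e r q p o h T hT
  · intro Λ _ e r q f h D hD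
    exact Pool.Agent.H564R3.RN.perm_depth e r q f h D hD

end Pool.Agent.Results.MP_0087d5_lc.ApproximateDepth
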