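import Pool.Agent.H586R2.PM.Main

/-!
Perfect matching: depth against the number of negations.

Circuits consist of monotone gates of fan-in at most two and of arbitrary further gates (for
instance NOT gates). If a circuit decides the perfect matching problem (it is enough that it does
so for bipartite graphs with given sides), its further gates are `t` NOT gates and the parts
between them have depth `D`, then `2^t > ⌊N / (576 D)⌋`: circuits of polylogarithmic depth have at
least `log₂ N - O(log log N)` NOT gates, and with `t` NOT gates the depth is at least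
`N / (576 · 2^t) - 1`.

The proof. A monotone tree of depth `d` that separates the perfect matchings of a block from the
graphs with a small vertex cover gives a protocol of depth `d`. Symmetrise it over the permutations
of the block: on the pair given by `x, y ∈ {0,1}^m` it finds the artificial uncovered edge with
probability exactly `(1 - |x ∩ y| / m) / (|x ∩ y| + 1)`, and the sum of
`(-1)^|x ∩ y|` times these numbers is `3 (3^m - 2^m) / m`, while a rectangle contributes at most
`8^(m/2)` (Lindsey's lemma). Hence `d = Ω(m)`. A decreasing chain of accepted graphs is built block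
by block: if in some block no accepted graph changes the input bits of the further gates, then
these gates can be replaced by constants, and the AND of the frozen circuit and of the bits that
were `1` is a monotone tree of small depth for that block.
-/

namespace Pool.Agent.Results.MP_0087d5_lc.DepthNegationTradeoff

/-- A Boolean function `φ` of `N`-vertex graphs that depends in an arbitrary way on the pairs
that do not join `A` to `B`, while in the pairs that join `A` to `B` it is monotone and depends on
at most `w` of them (those in `S`). Every variable is such a function if `w ≥ 1`. -/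
def FreeOutside {N : ℕ} (A B : Finset (Fin N)) (w : ℕ) (φ : SimpleGraph (Fin N) → Bool) : Prop :=
  ∃ S : Finset (Fin N × Fin N), (∀ e ∈ S, e.1 ∈ A ∧ e.2 ∈ B) ∧ S.card ≤ w ∧
    ∀ G G' : SimpleGraph (Fin N),
      (∀ u v, ¬ (u ∈ A ∧ v ∈ B ∨ u ∈ B ∧ v ∈ A) → (G.Adj u v ↔ G'.Adj u v)) →
      (∀ e ∈ S, G.Adj e.1 e.2 → G'.Adj e.1 e.2) → φ G = true → φ G' = true

/-- Let `L` be one half of the `N ≤ 2^D` vertices, `A ⊆ L`, `B` disjoint from `L`, `|A| = |B|` and
`M = ⌊|A| / (288 D)⌋`. Consider a circuit with gates `i : Fin s`: gate `i` has `w i` inputs, namely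
`a i j`, each a function `FreeOutside A B D` or an earlier gate, and computes the function `op i`
of its input bits `inp G i`. The gates outside `T` are monotone with at most two inputs, the gates
in `T` are arbitrary (for instance NOT gates); a path of the circuit that avoids `T` has at most
`D` gates (`dep` increases along such paths). Suppose that for all graphs all of whose edges join
`L` to its complement, the circuit decides whether the graph has a perfect matching.

Then `∏_{i ∈ T} (w i + 1) > M`. Moreover, if `∑_{i ∈ T} w i < 2^D`, then there is a chain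
`G 0 ≥ G 1 ≥ ... ≥ G M` of such graphs with perfect matchings, such that at every step only pairs
that join `A` to `B` change and some input bit of some gate in `T` changes. -/
theorem result (N D : ℕ) (hN : N ≤ 2 ^ D) (L A B : Finset (Fin N)) (hL : 2 * L.card = N)
    (hA : A ⊆ L) (hB : Disjoint B L) (hAB : A.card = B.card)
    (s : ℕ) (T : Finset (Fin s)) (w : Fin s → ℕ)
    (a : ∀ i, Fin (w i) → {φ : SimpleGraph (Fin N) → Bool // FreeOutside A B D φ} ⊕ Fin s)
    (htop : ∀ i j k, a i j = Sum.inr k → k < i)
    (op : ∀ i, (Fin (w i) → Bool) → Bool) (hmon : ∀ i ∉ T, w i ≤ 2 ∧ Monotone (op i))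
    (dep : Fin s → ℕ) (hdep : ∀ i ∉ T, 1 ≤ dep i ∧ dep i ≤ D ∧
      ∀ j k, a i j = Sum.inr k → k ∉ T → dep k < dep i)
    (val : SimpleGraph (Fin N) → Fin s → Bool)
    (inp : SimpleGraph (Fin N) → ∀ i, Fin (w i) → Bool)
    (hinp : ∀ G i j, inp G i j = Sum.elim (fun φ => φ.1 G) (val G) (a i j))
    (hval : ∀ G i, val G i = op i (inp G i))
    (o : Fin s) (ho : ∀ G : SimpleGraph (Fin N), (∀ u v, G.Adj u v → (u ∈ L ↔ v ∉ L)) →
      (val G o = true ↔ ∃ P : G.Subgraph, P.IsPerfectMatching))
    (M : ℕ) (hM : M = A.card / (288 * D)) :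
    M < ∏ i ∈ T, (w i + 1) ∧
    (∑ i ∈ T, w i < 2 ^ D → ∃ G : ℕ → SimpleGraph (Fin N),
      (∀ i ≤ M, (∀ u v, (G i).Adj u v → (u ∈ L ↔ v ∉ L)) ∧
        ∃ P : (G i).Subgraph, P.IsPerfectMatching) ∧
      ∀ i < M, G (i + 1) ≤ G i ∧
        (∀ u v, ¬ (u ∈ A ∧ v ∈ B ∨ u ∈ B ∧ v ∈ A) → ((G i).Adj u v ↔ (G (i + 1)).Adj u v)) ∧
        ∃ t ∈ T, inp (G i) t ≠ inp (G (i + 1)) t) := by
  classical
  have hinp' : ∀ G i, inp G i = fun j => Sum.elim (fun φ => φ.1 G) (val G) (a i j) :=
    fun G i => funext (fun j => hinp G i j)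
  have hval' : ∀ G i, val G i = op i (fun j => Sum.elim (fun φ => φ.1 G) (val G) (a i j)) :=
    fun G i => by rw [hval, hinp']
  obtain ⟨m, hm⟩ : ∃ m, m = 144 * D := ⟨_, rfl⟩
  have hMA : M * (m * 2) ≤ A.card := by
    have h1 : m * 2 = 288 * D := by rw [hm]; ring
    rw [h1, hM]
    exact Nat.div_mul_le_self _ _
  have hLc : (Finset.univ.filter (fun v => v ∉ L)).card = L.card := by
    have h1 : Finset.univ.filter (fun v => v ∉ L) = Lᶜ := by
      ext v; simp
    rw [h1, Finset.card_compl, Fintype.card_fin]
    omega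
  have hAL : A.card ≤ L.card := Finset.card_le_card hA
  -- the coordinates
  obtain ⟨z, hz⟩ : ∃ z, M * (m * 2) + z = L.card := ⟨L.card - M * (m * 2), by omega⟩
  obtain ⟨fA⟩ : Nonempty ((Fin M × (Fin m × Bool)) ↪ {v // v ∈ A}) := by
    apply Function.Embedding.nonempty_of_card_le
    simp only [Fintype.card_prod, Fintype.card_fin, Fintype.card_bool, Fintype.card_coe]
    exact hMA
  obtain ⟨fB⟩ : Nonempty ((Fin M × (Fin m ⊕ Fin m)) ↪ {v // v ∈ B}) := by
    apply Function.Embedding.nonempty_of_card_le
    simp only [Fintype.card_prod, Fintype.card_sum, Fintype.card_fin, Fintype.card_coe]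
    rw [← hAB, ← mul_two]
    exact hMA
  obtain ⟨eL, heL⟩ := Pool.Agent.H586R2.PM.exists_equiv (W := {v // v ∈ L})
    (fun p : Fin M × (Fin m × Bool) => ⟨(fA p).1, hA (fA p).2⟩) (fun p q h => by
      apply fA.injective
      apply Subtype.ext
      exact congrArg (fun v : {v // v ∈ L} => v.1) h) z (by
      simp only [Fintype.card_prod, Fintype.card_fin, Fintype.card_bool, Fintype.card_coe]
      exact hz)
  obtain ⟨eR, heR⟩ := Pool.Agent.H586R2.PM.exists_equiv (W := {v // v ∉ L})
    (fun p : Fin M × (Fin m ⊕ Fin m) => ⟨(fB p).1, Finset.disjoint_left.mp hB (fB p).2⟩)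
    (fun p q h => by
      apply fB.injective
      apply Subtype.ext
      exact congrArg (fun v : {v // v ∉ L} => v.1) h) z (by
      rw [Fintype.card_subtype, hLc]
      simp only [Fintype.card_prod, Fintype.card_sum, Fintype.card_fin]
      rw [← mul_two]
      exact hz)
  have hA' : ∀ p, (eL (Sum.inl p)).1 ∈ A := fun p => by rw [heL]; exact (fA p).2
  have hB' : ∀ p, (eR (Sum.inl p)).1 ∈ B := fun p => by rw [heR]; exact (fB p).2
  have hchain : ∑ i ∈ T, w i < 2 ^ D → ∃ G : ℕ → SimpleGraph (Fin N),
      (∀ i ≤ M, (∀ u v, (G i).Adj u v → (u ∈ L ↔ v ∉ L)) ∧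
        ∃ P : (G i).Subgraph, P.IsPerfectMatching) ∧
      ∀ i < M, G (i + 1) ≤ G i ∧
        (∀ u v, ¬ (u ∈ A ∧ v ∈ B ∨ u ∈ B ∧ v ∈ A) → ((G i).Adj u v ↔ (G (i + 1)).Adj u v)) ∧
        ∃ t ∈ T, ∃ j, Sum.elim (fun φ => φ.1 (G i)) (val (G i)) (a t j) ≠
          Sum.elim (fun φ => φ.1 (G (i + 1))) (val (G (i + 1))) (a t j) := by
    intro hT
    let pr : (Fin M → Pool.Agent.H586R2.PM.Blk m → Bool) → ∀ t, Fin (w t) → Bool := fun Y t j =>
      if t ∈ T then Sum.elim (fun φ => φ.1 (Pool.Agent.H586R2.PM.gr eL eR Y))
        (val (Pool.Agent.H586R2.PM.gr eL eR Y)) (a t j) else false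
    have hDpos : M = 0 ∨ 1 ≤ D := by
      rcases Nat.eq_zero_or_pos D with h | h
      · left; rw [hM, h]; simp
      · right; exact h
    obtain ⟨Y, hY1, hY2, hY3⟩ := Pool.Agent.H560R2.chain_core (κ := Fin M)
      (neg := Pool.Agent.H586R2.PM.BYes (m := m)) (z0 := fun _ => true)
      Pool.Agent.H586R2.PM.yes_full (en := fun i : Fin M => i) Function.injective_id pr (by
        intro y J hy hJ
        have hD1 : 1 ≤ D := by
          rcases hDpos with h | h
          · exact absurd J.isLt (by omega)
          · exact h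
        obtain ⟨X, hX1, t, ht, j, hj⟩ := Pool.Agent.H586R2.PM.step hA' hB'
          (d := 4 * D) (D := D) (k := D) (wd := D) (by ring) (by omega) (by rw [hm]; ring)
          (leaf := fun (φ : {φ : SimpleGraph (Fin N) → Bool // FreeOutside A B D φ})
            (G : SimpleGraph (Fin N)) => φ.1 G) (fun l => l.2) htop hmon hdep hval' ho
          (by omega) y J hy hJ
        refine ⟨X, hX1, fun h => hj ?_⟩
        have h1 := congrFun (congrFun h t) j
        simp only [pr, ht, if_true] at h1
        exact h1)
    refine ⟨fun i => Pool.Agent.H586R2.PM.gr eL eR (Y i), ?_, ?_⟩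
    · intro i hi
      exact ⟨fun u v h => Pool.Agent.H586R2.PM.gr_bip _ h,
        Pool.Agent.H586R2.PM.gr_yes _ (hY3 i hi)⟩
    · intro i hi
      refine ⟨?_, fun u v h => Pool.Agent.H586R2.PM.gr_outside hA' hB' _ _ u v h, ?_⟩
      · obtain ⟨J, X, h1, h2⟩ := hY1 i hi
        apply Pool.Agent.H586R2.PM.gr_mono
        intro c e he
        by_cases hc : c = J
        · rw [hc, h1]
        · rw [h2, Function.update_of_ne hc] at he
          exact he
      · have h1 := hY2 i hi
        by_contra hcon
        push Not at hcon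
        apply h1
        funext t j
        simp only [pr]
        split_ifs with ht
        · exact hcon t ht j
        · rfl
  constructor
  · by_cases hT : ∑ i ∈ T, w i < 2 ^ D
    · obtain ⟨G, -, hG⟩ := hchain hT
      obtain ⟨C, -, -, -, c4, c5⟩ := Pool.Agent.H560R2.to_circuit_iff T w a op htop hmon
        (fun (φ : {φ : SimpleGraph (Fin N) → Bool // FreeOutside A B D φ})
          (G : SimpleGraph (Fin N)) => φ.1 G) val hval' s le_rfl
      have hTf : T.filter (fun i => i.val < s) = T :=
        Finset.filter_true_of_mem (fun i _ => i.isLt)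
      rw [hTf] at c4
      rw [← c4]
      refine C.chain_le M (fun i φ => φ.1 (G (M - i))) (fun i hi => ?_) (fun i hi h => ?_)
      · rintro ⟨φ, S, hS1, hS2, hS3⟩
        show φ (G (M - i)) ≤ φ (G (M - (i + 1)))
        have e1 : M - i = (M - (i + 1)) + 1 := by omega
        obtain ⟨h1, h2, -⟩ := hG (M - (i + 1)) (by omega)
        rw [← e1] at h1 h2
        rcases h3 : φ (G (M - i)) with _ | _
        · exact Bool.false_le _
        · rw [hS3 _ (G (M - (i + 1))) (fun u v h => (h2 u v h).symm)
            (fun e _ hadj => h1 hadj) h3]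
      · have e1 : M - i = (M - (i + 1)) + 1 := by omega
        obtain ⟨-, -, t, ht, j, hj⟩ := hG (M - (i + 1)) (by omega)
        rw [← e1] at hj
        exact hj ((c5 _ _).mp h t ht t.isLt j).symm
    · have h1 : ∀ S : Finset (Fin s), 1 + ∑ i ∈ S, w i ≤ ∏ i ∈ S, (w i + 1) := by
        intro S
        induction S using Finset.induction_on with
        | empty => simp
        | insert i S hi ih =>
          rw [Finset.sum_insert hi, Finset.prod_insert hi]
          nlinarith [Nat.zero_le (w i), Nat.zero_le (∑ i ∈ S, w i)]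
      have h2 := h1 T
      have h3 : M ≤ A.card := by rw [hM]; exact Nat.div_le_self _ _
      omega
  · intro hT
    obtain ⟨G, hG1, hG2⟩ := hchain hT
    refine ⟨G, hG1, fun i hi => ⟨(hG2 i hi).1, (hG2 i hi).2.1, ?_⟩⟩
    obtain ⟨-, -, t, ht, j, hj⟩ := hG2 i hi
    refine ⟨t, ht, fun h => hj ?_⟩
    rw [← hinp, ← hinp, h]

end Pool.Agent.Results.MP_0087d5_lc.DepthNegationTradeoff
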