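import Pool.Agent.H630VC.PM1

/-!
Circuits with few negations and randomised circuits need exponential size even to tell the bipartite
graphs that have a perfect matching from the bipartite graphs all of whose matchings have at most
`n^(1-c)` edges, for `c < 1/3`. Most gates are arbitrary nondecreasing real functions of two values;
the others are arbitrary gates, for example NOT gates. No bound on the depth is assumed.

Proof: for a graph `G` on the vertex set `Fin n` and a fixed set `U` of `n^κ` vertices take the
bipartite double cover of the graph that has the edges of `G` and all pairs that touch `U`. If `G`
contains a disjoint union of at most `|U|` cliques that covers all vertices then Hall's condition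
holds. If all edges of `G` touch a set `T` then all matchings have at most `2 (|T| + |U|)` edges. By
the average-case approximation argument (level functions on equivalence relations with small
support, and a random walk that takes care of the further gates) small circuits do not tell such
graphs `G` apart.
-/

namespace Pool.Agent.Results.MP_0087d5_lc.GapMatching

open H630VC

/-- Let `α, c ≥ 0`, `ν > 0` and `2 α + 3 c + 6 ν < 1`. For all large `n` the following holds. Take a
randomised circuit (a finite family of circuits `l r`, `r ∈ R`, with lists `q r` of the wires of
the further gates) on bipartite graphs with `n + n` vertices that, for at least three quarters of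
the `r` on each graph, outputs a value at least one if the graph has a perfect matching and a value
less than one if all its matchings have at most `n^(1-c)` edges. If for each `r` the product of the
numbers `w + 1` over the further gates (`w` is the number of their wires) is at most `n^α`, then for
some `r` the number of gates plus the number of wires of the further gates is at least
`2^(n^ν)`. -/
theorem result (α c ν : ℝ) (hα : 0 ≤ α) (hc : 0 ≤ c) (hν : 0 < ν)
    (h : 2 * α + 3 * c + 6 * ν < 1) :
    ∃ N : ℕ, ∀ n : ℕ, N ≤ n → ∀ (R : Type) [Fintype R] [Nonempty R]
      (l : R → List ((Fin n → Fin n → Prop) → ℝ))
      (q : R → List (List (((Fin n → Fin n → Prop) → ℝ) × ℝ))),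
      (∀ r, FProg (bipInputs n) (l r) (q r)) → RSepMatching ((n : ℝ) ^ (1 - c)) l →
      (∀ r, (combos (q r) : ℝ) ≤ (n : ℝ) ^ α) →
      ∃ r, (2 : ℝ) ^ ((n : ℝ) ^ ν) ≤ (l r).length + wires (q r) :=
  asymp_matching α c ν hα hc hν h

end Pool.Agent.Results.MP_0087d5_lc.GapMatching
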