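import Pool.Agent.H560R2.Mat8
import Pool.Agent.H560R2.Dep1

/-!
Randomised circuits with few negations for bipartite perfect matching.

The inputs are the `n * n` bits that say which pairs of the complete bipartite graph `K_{n,n}` are
edges. Circuits consist of monotone gates of fan-in at most two and of arbitrary further gates, for
instance NOT gates; there is no bound on the depth. A randomised circuit is a finite family of
circuits from which one is chosen uniformly at random; it decides the problem with advantage
`1 / c` if on every input the chosen circuit is correct with probability at least `1/2 + 1/c` (so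
`c = 6` is the bound `2/3` from the definition of RNC, and `c = 2` the deterministic case).

The proof. For monotone circuits: the positive tests are random perfect matchings, the negative
tests are the graphs of all edges that touch a small random set of vertices. A matching version of
the robust sunflower lemma (a family of more than `R ^ l` matchings with `l` edges has a core `Y`
such that a random vertex set touches the rest `S - Y` of some member completely, except with very
small probability) shows that a small monotone circuit is either true on almost all negative tests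
or false on most of the positive tests. Then the chain argument: in terms of the missing edges,
the graph consists of many blocks, and the blocks are filled one after the other; on average the
bits that enter the arbitrary gates rarely change, so these gates can be frozen.
-/

namespace Pool.Agent.Results.MP_0087d5_lc.RandomizedCircuits

/-- A circuit with `n * n` inputs and gates `0, ..., s - 1`. Gate `i` has `w i` inputs, namely
`a i j`, each an input bit or an earlier gate, and computes the function `op i` of them; `val x i`
is its value on the input `x`. The gates outside `T` are monotone with at most two inputs, the gates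
in `T` are arbitrary. The gate `out` is the output. -/
structure Circuit (n : ℕ) where
  s : ℕ
  T : Finset (Fin s)
  w : Fin s → ℕ
  a : (i : Fin s) → Fin (w i) → (Fin n × Fin n) ⊕ Fin s
  op : (i : Fin s) → (Fin (w i) → Bool) → Bool
  val : (Fin n × Fin n → Bool) → Fin s → Bool
  out : Fin s
  earlier : ∀ i j k, a i j = Sum.inr k → k < i
  mono : ∀ i ∉ T, w i ≤ 2 ∧ Monotone (op i)
  spec : ∀ x i, val x i = op i (fun j => Sum.elim x (val x) (a i j))

/-- The number of gates plus the number of inputs of the arbitrary gates. -/
def Circuit.size {n : ℕ} (C : Circuit n) : ℕ := C.s + ∑ i ∈ C.T, C.w i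

/-- The product of the numbers `w i + 1` over the arbitrary gates; it is `2 ^ t` if these are `t`
NOT gates. -/
def Circuit.prod {n : ℕ} (C : Circuit n) : ℕ := ∏ i ∈ C.T, (C.w i + 1)

/-- The bipartite graph on `n + n` vertices whose edges are the pairs `i`, `j` with `x (i, j)`
true. -/
def graph {n : ℕ} (x : Fin n × Fin n → Bool) : SimpleGraph (Fin n ⊕ Fin n) where
  Adj u v := ∃ i j, x (i, j) = true ∧
    ((u = Sum.inl i ∧ v = Sum.inr j) ∨ (u = Sum.inr j ∧ v = Sum.inl i))
  symm := ⟨by
    rintro u v ⟨i, j, h, h' | h'⟩
    · exact ⟨i, j, h, Or.inr ⟨h'.2, h'.1⟩⟩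
    · exact ⟨i, j, h, Or.inl ⟨h'.2, h'.1⟩⟩⟩
  loopless := ⟨by
    rintro u ⟨i, j, h, ⟨h1, h2⟩ | ⟨h1, h2⟩⟩
    · exact Sum.inl_ne_inr (h1.symm.trans h2)
    · exact Sum.inl_ne_inr (h2.symm.trans h1)⟩

/-- The graph has a perfect matching. -/
def HasPM {n : ℕ} (x : Fin n × Fin n → Bool) : Prop :=
  ∃ M : (graph x).Subgraph, M.IsPerfectMatching

/-- The circuit answers correctly on `x`. -/
def Circuit.Correct {n : ℕ} (C : Circuit n) (x : Fin n × Fin n → Bool) : Prop :=
  C.val x C.out = true ↔ HasPM x

lemma not_anti : ∀ a b : Bool, a ≤ b → (!b) ≤ (!a) := by decide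

lemma hasPM_iff {n : ℕ} (x : Fin n × Fin n → Bool) :
    HasPM x ↔ ∃ σ : Equiv.Perm (Fin n), ∀ i, x (i, σ i) = true := by
  constructor
  · rintro ⟨M, hM⟩
    rw [SimpleGraph.Subgraph.isPerfectMatching_iff] at hM
    have key : ∀ i : Fin n, ∃ j : Fin n, M.Adj (Sum.inl i) (Sum.inr j) ∧ x (i, j) = true := by
      intro i
      obtain ⟨w, hw, -⟩ := hM (Sum.inl i)
      obtain ⟨i', j, h, ⟨h1, h2⟩ | ⟨h1, h2⟩⟩ := M.adj_sub hw
      · subst h2
        have := Sum.inl.inj h1
        subst this
        exact ⟨j, hw, h⟩
      · exact absurd h1 (by simp)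
    choose τ h1 h2 using key
    have hinj : Function.Injective τ := by
      intro i i' hii
      obtain ⟨w, -, hw⟩ := hM (Sum.inr (τ i))
      have e1 := hw _ (h1 i).symm
      have e2 := hw (Sum.inl i') (by
        simp only
        rw [hii]
        exact (h1 i').symm)
      exact Sum.inl.inj (e1.trans e2.symm)
    exact ⟨Equiv.ofBijective τ (Finite.injective_iff_bijective.mp hinj), h2⟩
  · rintro ⟨σ, hσ⟩
    let M : (graph x).Subgraph :=
      { verts := Set.univ
        Adj := fun u v => ∃ i, (u = Sum.inl i ∧ v = Sum.inr (σ i)) ∨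
          (u = Sum.inr (σ i) ∧ v = Sum.inl i)
        adj_sub := by
          rintro u v ⟨i, h⟩
          exact ⟨i, σ i, hσ i, h⟩
        edge_vert := fun _ => Set.mem_univ _
        symm := ⟨by
          rintro u v ⟨i, h | h⟩
          · exact ⟨i, Or.inr ⟨h.2, h.1⟩⟩
          · exact ⟨i, Or.inl ⟨h.2, h.1⟩⟩⟩ }
    refine ⟨M, ?_⟩
    rw [SimpleGraph.Subgraph.isPerfectMatching_iff]
    rintro (i | j)
    · refine ⟨Sum.inr (σ i), ⟨i, Or.inl ⟨rfl, rfl⟩⟩, ?_⟩
      rintro w ⟨i', ⟨h1, h2⟩ | ⟨h1, h2⟩⟩
      · rw [h2, Sum.inl.inj h1]
      · exact absurd h1 (by simp)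
    · refine ⟨Sum.inl (σ.symm j), ⟨σ.symm j, Or.inr ⟨by simp, rfl⟩⟩, ?_⟩
      rintro w ⟨i', ⟨h1, h2⟩ | ⟨h1, h2⟩⟩
      · exact absurd h1 (by simp)
      · rw [h2, Sum.inr.inj h1]
        simp

open Classical in
/-- Let `M = ⌊n / (2 ^ 120 (c d) ^ 9)⌋`, and consider circuits `C` with `8 c |C| ≤ 2 ^ d` on `n * n`
inputs.

(1) There is a distribution on the bipartite graphs on `n + n` vertices such that no such circuit
whose product of the numbers `w i + 1` is at most `M / c` decides with probability at least
`1/2 + 1/c` whether the graph has a perfect matching.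

(2) If a finite family of such circuits decides, for every single bipartite graph on `n + n`
vertices, for a fraction of at least `1/2 + 1/c` of the members of the family, whether it has a
perfect matching, then this product is larger than `M / c` for some member. -/
theorem result : ∀ n d c : ℕ, 1 ≤ d → 1 ≤ c →
    (∃ (Λ : Type) (_ : Fintype Λ) (_ : Nonempty Λ) (D : Λ → Fin n × Fin n → Bool),
      ∀ C : Circuit n, 8 * c * C.size ≤ 2 ^ d → c * C.prod ≤ n / (2 ^ 120 * (c * d) ^ 9) →
        2 * c * (Finset.univ.filter (fun l => C.Correct (D l))).card <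
          (c + 2) * Fintype.card Λ) ∧
    ∀ (R : Type) [Fintype R] [Nonempty R] (C : R → Circuit n),
      (∀ r, 8 * c * (C r).size ≤ 2 ^ d) →
      (∀ x, (c + 2) * Fintype.card R ≤
        2 * c * (Finset.univ.filter (fun r => (C r).Correct x)).card) →
      ∃ r, n / (2 ^ 120 * (c * d) ^ 9) < c * (C r).prod := by
  intro n d c hd hc
  have hdist : ∃ (Λ : Type) (_ : Fintype Λ) (_ : Nonempty Λ) (D : Λ → Fin n × Fin n → Bool),
      ∀ C : Circuit n, 8 * c * C.size ≤ 2 ^ d → c * C.prod ≤ n / (2 ^ 120 * (c * d) ^ 9) →
        2 * c * (Finset.univ.filter (fun l => C.Correct (D l))).card <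
          (c + 2) * Fintype.card Λ := by
    obtain ⟨Λ, i1, i2, D, hD⟩ := Pool.Agent.H560R2.match_hard n d c hd hc
    refine ⟨Λ, i1, i2, fun l p => !(D l p), fun C h1 h2 => ?_⟩
    obtain ⟨C', c1, c2, c3, c4, -⟩ := Pool.Agent.H560R2.to_circuit_iff C.T C.w C.a
      (fun i u => !(C.op i (fun j => !(u j)))) C.earlier
      (fun i hi => ⟨(C.mono i hi).1, fun u v huv =>
        not_anti _ _ ((C.mono i hi).2 (show (fun j => !(v j)) ≤ (fun j => !(u j)) from
          fun j => not_anti _ _ (huv j)))⟩)
      (fun p (z : Fin n × Fin n → Bool) => z p) (fun z i => !(C.val (fun p => !(z p)) i))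
      (fun z i => by
        simp only
        rw [C.spec]
        congr 2
        funext j
        rcases C.a i j with p | k
        · simp
        · simp) C.s le_rfl
    have hTf : C.T.filter (fun i => i.val < C.s) = C.T :=
      Finset.filter_true_of_mem (fun i _ => i.isLt)
    rw [hTf] at c3 c4
    have h3 := hD C.s C' (Pool.Agent.H520R2.NM.Wire.gate C.out) (by
      refine le_trans (Nat.mul_le_mul_left _ ?_) h1
      unfold Circuit.size
      omega) (by rw [c4]; exact h2)
    have h4 : ∀ z : Fin n × Fin n → Bool,
        (Pool.Agent.H520R2.NM.Wire.gate C.out).eval z (C'.vals z) =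
        !(C.val (fun p => !(z p)) C.out) := fun z => c1 z C.out
    simp only [h4] at h3
    refine lt_of_le_of_lt (le_of_eq ?_) h3
    congr 2
    ext l
    rw [Finset.mem_filter, Finset.mem_filter]
    simp only [Finset.mem_univ, true_and, Circuit.Correct, hasPM_iff, Bool.not_eq_true']
    rw [← Bool.not_eq_true, not_iff_not]
  refine ⟨hdist, ?_⟩
  intro R _ _ C h1 h2
  obtain ⟨Λ, _, _, D, hD⟩ := hdist
  by_contra hcon
  push Not at hcon
  exact Pool.Agent.H560R2.rand_of_dist c (fun r l => (C r).Correct (D l)) (fun l => h2 (D l))
    (fun r => hD (C r) (h1 r) (hcon r))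

end Pool.Agent.Results.MP_0087d5_lc.RandomizedCircuits
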